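import Pool.Agent.H61.KV.TN

/-!
# Kuiper board KV, part S: the structure of the cone along a minimal face

In the coordinates `V = E4 × E5` the span of the face of `p` is `E4 × 0`.  `(a, b) ∈ C` is the
typical point, `Bs C` the projection of `C` to `E5`, `Pz C z` says that the functional `⟪z, ·⟫` of
`E4` is positive on the face `{a | (a, 0) ∈ C}` minus the origin.
-/

open Topology Set
open Pool.Agent.H59 Pool.Agent.H64.LB Pool.Agent.H61.KU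
open scoped unitInterval

namespace Pool.Agent.H61.KV

/-- Euclidean 4-space -/
abbrev E4 : Type := EuclideanSpace ℝ (Fin 4)

/-- Euclidean 5-space -/
abbrev E5 : Type := EuclideanSpace ℝ (Fin 5)

/-- the projection of `C` to the second factor -/
def Bs (C : Set (E4 × E5)) : Set E5 := {b | ∃ a, (a, b) ∈ C}

/-- `⟪z, ·⟫` is positive on the face -/
def Pz (C : Set (E4 × E5)) (z : E4) : Prop := ∀ a, (a, (0 : E5)) ∈ C → a ≠ 0 → 0 < inner ℝ z a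

/-- `P · b` is the nearest point projection of `E4` to the slice of `C` over `b` -/
def Prj (C : Set (E4 × E5)) (P : E4 → E5 → E4) : Prop :=
  (∀ y, ∀ b ∈ interior (Bs C), (P y b, b) ∈ C ∧ ∀ a, (a, b) ∈ C → 0 ≤ inner ℝ (P y b - y) (a - P y b)) ∧
  ContinuousOn (fun w : E4 × E5 => P w.1 w.2) (univ ×ˢ interior (Bs C))

/-- `a₀` is a minimum point of `⟪z, ·⟫` on the slice of `C` over `b₀` -/
def Min (C : Set (E4 × E5)) (z a₀ : E4) (b₀ : E5) : Prop :=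
  (a₀, b₀) ∈ C ∧ ∀ a, (a, b₀) ∈ C → inner ℝ z a₀ ≤ inner ℝ z a

/-- `g` is the lowest point of the slice of `C` over `b` -/
def Low (C : Set (E4 × E5)) (g : E4) (b : E5) : Prop := ∀ a, (a, b) ∈ C ↔ (a - g, (0 : E5)) ∈ C

/-- the standard situation in coordinates -/
structure Std (m : PN 2 → E4 × E5) (p : E4 × E5) : Prop where
  cfg : Cfg m
  ms : Ms m p
  spn : ∀ v, v ∈ Sp (Cn m) p ↔ v.2 = 0

/-- S1. Coordinates. -/
def T_STD : Prop :=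
  ∀ (V : Type) [NormedAddCommGroup V] [NormedSpace ℝ V] [FiniteDimensional ℝ V]
    (S : Submodule ℝ V), Module.finrank ℝ V = 9 → Module.finrank ℝ S = 4 →
    ∃ L : V ≃L[ℝ] E4 × E5, ∀ v, v ∈ S ↔ (L v).2 = 0

/-- S2. Positive functionals: they form an open set, and there are enough of them. -/
def T_POS : Prop :=
  ∀ C : Set (E4 × E5), IsCC C →
    (∀ Z : Set E4, IsCompact Z → (∀ z ∈ Z, Pz C z) →
      ∃ δ > 0, ∀ z ∈ Z, ∀ z', ‖z' - z‖ ≤ δ → Pz C z') ∧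
    (∃ z : Fin 5 → E4, (∀ i, Pz C (z i)) ∧ ∀ a, (∀ i, inner ℝ (z i) a = 0) → a = 0) ∧
    (∀ a, (∀ z, Pz C z → 0 ≤ inner ℝ z a) → (a, (0 : E5)) ∈ C)

/-- S3. Bounds. -/
def T_BND : Prop :=
  ∀ C : Set (E4 × E5), IsCC C → ∀ Z : Set E4, IsCompact Z → (∀ z ∈ Z, Pz C z) → ∀ R : ℝ,
    ∃ M : ℝ, ∀ z ∈ Z, ∀ a b, (a, b) ∈ C → ‖b‖ ≤ R → inner ℝ z a ≤ R → ‖a‖ ≤ M

/-- S4. The base: it has interior points, and a point of it which is not interior lies on a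
supporting hyperplane. -/
def T_BSI : Prop :=
  ∀ C : Set (E4 × E5), IsCC C → Submodule.span ℝ C = ⊤ →
    (interior (Bs C)).Nonempty ∧ Convex ℝ (interior (Bs C)) ∧
    (∀ c : ℝ, 0 < c → ∀ b ∈ interior (Bs C), c • b ∈ interior (Bs C)) ∧
    (∀ b ∈ Bs C, ∀ b' ∈ interior (Bs C), b + b' ∈ interior (Bs C)) ∧
    ∀ b ∈ Bs C, b ∉ interior (Bs C) →
      ∃ κ : E5 →ₗ[ℝ] ℝ, κ ≠ 0 ∧ (∀ b' ∈ Bs C, 0 ≤ κ b') ∧ κ b = 0

/-- S5. Supporting functionals with prescribed first part. -/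
def T_SPF : Prop :=
  ∀ (C : Set (E4 × E5)) (z a₀ : E4) (b₀ : E5), IsCC C → b₀ ∈ interior (Bs C) → Min C z a₀ b₀ →
    ∃ κ : E5 →ₗ[ℝ] ℝ, (∀ a b, (a, b) ∈ C → 0 ≤ inner ℝ z a + κ b) ∧ inner ℝ z a₀ + κ b₀ = 0

/-- S6. Minimum points of positive functionals lie in `Mh m`. -/
def T_MNM : Prop :=
  ∀ (m : PN 2 → E4 × E5) (p : E4 × E5), Std m p → ∀ (z a₀ : E4) (b₀ : E5),
    Pz (Cn m) z → b₀ ∈ interior (Bs (Cn m)) → Min (Cn m) z a₀ b₀ → (a₀, b₀) ∈ Mh m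

/-- S7. The nearest point projection. -/
def T_PRC : Prop := ∀ C : Set (E4 × E5), IsCC C → ∃ P : E4 → E5 → E4, Prj C P

/-- S8. The projections of the points `-(1/ε) z`. -/
def T_PRM : Prop :=
  ∀ (C : Set (E4 × E5)) (P : E4 → E5 → E4), IsCC C → Prj C P → ∀ (Z : Set E4) (K : Set E5),
    IsCompact Z → (∀ z ∈ Z, Pz C z) → IsCompact K → K ⊆ interior (Bs C) →
    ∃ ε₀ : ℝ, 0 < ε₀ ∧ ∃ M : ℝ, ∀ ε : ℝ, 0 < ε → ε ≤ ε₀ → ∀ z ∈ Z, ∀ b ∈ K,
      ‖P (-((1 / ε) • z)) b‖ ≤ M ∧ Pz C (z + ε • P (-((1 / ε) • z)) b) ∧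
      Min C (z + ε • P (-((1 / ε) • z)) b) (P (-((1 / ε) • z)) b) b

/-- S9. Families of points of `Mh m` over a slice are open in the projective plane. -/
def T_OPN : Prop :=
  ∀ (m : PN 2 → E4 × E5), Cfg m → ∀ (η : E5 →ₗ[ℝ] ℝ) (O : Set E5) (g : E5 → E4), IsOpen O →
    ContinuousOn g O → (∀ b ∈ O, η b = 1 → (g b, b) ∈ Mh m) →
    IsOpen {x : PN 2 | ∃ (c : ℝ) (b : E5), 0 < c ∧ b ∈ O ∧ η b = 1 ∧ m x = c • (g b, b)}

/-- S10. Common minimum points. -/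
def T_IND : Prop :=
  ∀ (m : PN 2 → E4 × E5) (p : E4 × E5), Std m p → ∀ b₀ ∈ interior (Bs (Cn m)), ∀ Z : Set E4,
    IsCompact Z → Convex ℝ Z → (∀ z ∈ Z, Pz (Cn m) z) → ∃ a₀, ∀ z ∈ Z, Min (Cn m) z a₀ b₀

/-- S11. The slices over interior points of the base. -/
def T_STQ : Prop :=
  ∀ (m : PN 2 → E4 × E5) (p : E4 × E5), Std m p → ∀ b ∈ interior (Bs (Cn m)),
    ∃ g, Low (Cn m) g b

/-- S12. The slices over the other points of the base. -/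
def T_STB : Prop :=
  ∀ C : Set (E4 × E5), IsCC C → Submodule.span ℝ C = ⊤ →
    (∀ b ∈ interior (Bs C), ∃ g, Low C g b) → ∀ b ∈ Bs C, ∃ g, Low C g b

/-- S13. Every coset of the span of a minimal face has a foot. -/
def T_ST : Prop :=
  ∀ (V : Type) [NormedAddCommGroup V] [NormedSpace ℝ V] [FiniteDimensional ℝ V] (m : PN 2 → V),
    Cfg m → ∀ p, Ms m p → ∀ q ∈ Cn m, ∃ g, Foot (Cn m) p q g

/-- S14. The feet lie in `Mh m`, and their faces have only the origin in common with the face. -/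
def T_STM : Prop :=
  ∀ (V : Type) [NormedAddCommGroup V] [NormedSpace ℝ V] [FiniteDimensional ℝ V] (m : PN 2 → V),
    Cfg m → ∀ p, Ms m p → ∀ q g, Foot (Cn m) p q g →
      (∀ r ∈ Fc (Cn m) g, r ∈ Fc (Cn m) p → r = 0) ∧ g ∈ Mh m ∧ Fc (Cn m) g ⊆ Mh m

/-- S15. Continuity of the lowest points. -/
def T_GCT : Prop :=
  ∀ (C : Set (E4 × E5)) (g : E5 → E4), IsCC C → (∀ b ∈ interior (Bs C), Low C (g b) b) →
    ContinuousOn g (interior (Bs C))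

/-- S16. Simplicial cones. -/
def T_SIM : Prop :=
  ∀ (W : Set E5) (b₀ : E5), IsOpen W → Convex ℝ W → (∀ c : ℝ, 0 < c → ∀ b ∈ W, c • b ∈ W) →
    b₀ ∈ W → b₀ ≠ 0 → ∃ κ : Fin 5 → E5 →ₗ[ℝ] ℝ, (∀ i, 0 < κ i b₀) ∧ ∀ b, (∀ i, 0 < κ i b) → b ∈ W

/-- S17. The points of `Mh m` over the interior of the base are lowest points. -/
def T_STK : Prop :=
  ∀ (m : PN 2 → E4 × E5) (p : E4 × E5), Std m p → ∀ x : PN 2,
    (m x).2 ∈ interior (Bs (Cn m)) → Low (Cn m) (m x).1 (m x).2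

/-- S18. The same without coordinates. -/
def T_STJ : Prop :=
  ∀ (V : Type) [NormedAddCommGroup V] [NormedSpace ℝ V] [FiniteDimensional ℝ V] (m : PN 2 → V),
    Cfg m → ∀ p, Ms m p → ∀ q ∈ Mh m, Ov (Cn m) p q → Foot (Cn m) p q q

end Pool.Agent.H61.KV
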