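import Pool.Agent.H61.KV.TN

/-!
# Kuiper board KV, part E: images without segments

The minimal faces of the cone are the lines of a projective plane.
-/

open Topology Set
open Pool.Agent.H59 Pool.Agent.H64.LB Pool.Agent.H61.KU
open scoped unitInterval

namespace Pool.Agent.H61.KV

/-- the functionals which are nonnegative on `C` and vanish at `p` form one ray, spanned by `κ₀` -/
def Nr {V : Type} [NormedAddCommGroup V] [NormedSpace ℝ V] (C : Set V) (p : V)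
    (κ₀ : V →ₗ[ℝ] ℝ) : Prop :=
  κ₀ ≠ 0 ∧ (∀ q ∈ C, 0 ≤ κ₀ q) ∧ κ₀ p = 0 ∧
    ∀ κ : V →ₗ[ℝ] ℝ, (∀ q ∈ C, 0 ≤ κ q) → κ p = 0 → ∃ c : ℝ, κ = c • κ₀

/-- E1. Faces which are contained in `Mh m` are rays. -/
def T_EFR : Prop :=
  ∀ (V : Type) [NormedAddCommGroup V] [NormedSpace ℝ V] [FiniteDimensional ℝ V] (m : PN 2 → V),
    Cfg m → NSg m → ∀ q ∈ Cn m, Fc (Cn m) q ⊆ Mh m → ∀ r ∈ Fc (Cn m) q, ∃ c : ℝ, r = c • q

/-- E2. Boundary points of a minimal face. -/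
def T_EBD : Prop :=
  ∀ (V : Type) [NormedAddCommGroup V] [NormedSpace ℝ V] [FiniteDimensional ℝ V] (m : PN 2 → V),
    Cfg m → NSg m → ∀ p t, Ms m p → Bd (Cn m) p t →
      t ∈ Mh m ∧ Fc (Cn m) t ⊆ Mh m ∧ ∀ r ∈ Fc (Cn m) t, ∃ c : ℝ, r = c • t

/-- E3. A foot which is not in the hyperplanes through the face. -/
def T_EOV : Prop :=
  ∀ (V : Type) [NormedAddCommGroup V] [NormedSpace ℝ V] [FiniteDimensional ℝ V] (m : PN 2 → V),
    Cfg m → ∀ p, Ms m p → ∃ γ, Foot (Cn m) p γ γ ∧ Ov (Cn m) p γ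

/-- E4. The faces of `γ + t` and `γ + t₂`, modulo the span of the face of `p`. -/
def T_CMN : Prop :=
  ∀ (V : Type) [NormedAddCommGroup V] [NormedSpace ℝ V] [FiniteDimensional ℝ V] (m : PN 2 → V),
    Cfg m → NSg m → ∀ p γ t t₂ v v₂, Ms m p → Foot (Cn m) p γ γ → γ ≠ 0 → Bd (Cn m) p t →
      Bd (Cn m) p t₂ → t₂ ∉ Submodule.span ℝ {t} → v ∈ Sp (Cn m) (γ + t) →
      v₂ ∈ Sp (Cn m) (γ + t₂) → v - v₂ ∈ Sp (Cn m) p → ∃ c : ℝ, v - c • γ ∈ Sp (Cn m) p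

/-- E5. The face of `γ + t` is minimal. -/
def T_RK4 : Prop :=
  ∀ (V : Type) [NormedAddCommGroup V] [NormedSpace ℝ V] [FiniteDimensional ℝ V] (m : PN 2 → V),
    Cfg m → NSg m → ∀ p γ t, Ms m p → Foot (Cn m) p γ γ → Ov (Cn m) p γ → Bd (Cn m) p t →
      Ms m (γ + t)

/-- E6. No supporting hyperplane contains a minimal face and a point outside of it. -/
def T_MAX : Prop :=
  ∀ (V : Type) [NormedAddCommGroup V] [NormedSpace ℝ V] [FiniteDimensional ℝ V] (m : PN 2 → V),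
    Cfg m → NSg m → ∀ p, Ms m p → ∀ q ∈ Cn m, q ∉ Fc (Cn m) p → Ov (Cn m) p q

/-- E7. The relative interior of a minimal face contains no point of `Mh m`. -/
def T_MIT : Prop :=
  ∀ (V : Type) [NormedAddCommGroup V] [NormedSpace ℝ V] [FiniteDimensional ℝ V] (m : PN 2 → V),
    Cfg m → NSg m → ∀ p, Ms m p → ∀ q ∈ Fc (Cn m) p, q ∈ Mh m → p ∉ Fc (Cn m) q

/-- E8. Two minimal faces have one ray in common. -/
def T_UNI : Prop :=
  ∀ (V : Type) [NormedAddCommGroup V] [NormedSpace ℝ V] [FiniteDimensional ℝ V] (m : PN 2 → V),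
    Cfg m → NSg m → ∀ p p', Ms m p → Ms m p' → p' ∉ Fc (Cn m) p →
      ∃ t, t ≠ 0 ∧ t ∈ Fc (Cn m) p ∧ t ∈ Fc (Cn m) p' ∧
        ∀ r ∈ Fc (Cn m) p, r ∈ Fc (Cn m) p' → ∃ c : ℝ, r = c • t

/-- E9. Two points are joined by a minimal face. -/
def T_JOI : Prop :=
  ∀ (V : Type) [NormedAddCommGroup V] [NormedSpace ℝ V] [FiniteDimensional ℝ V] (m : PN 2 → V),
    Cfg m → NSg m → ∀ x y : PN 2, x ≠ y → ∃ p, Ms m p ∧ m x ∈ Fc (Cn m) p ∧ m y ∈ Fc (Cn m) p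

/-- E10. There is a minimal face. -/
def T_EXM : Prop :=
  ∀ (V : Type) [NormedAddCommGroup V] [NormedSpace ℝ V] [FiniteDimensional ℝ V] (m : PN 2 → V),
    Cfg m → NSg m → ∃ p, Ms m p

/-- E11. The spans of three minimal faces in general position. -/
def T_SUM : Prop :=
  ∀ (V : Type) [NormedAddCommGroup V] [NormedSpace ℝ V] [FiniteDimensional ℝ V] (m : PN 2 → V),
    Cfg m → NSg m → ∀ p γ t t₂, Ms m p → Foot (Cn m) p γ γ → Ov (Cn m) p γ → Bd (Cn m) p t →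
      Bd (Cn m) p t₂ → t₂ ∉ Submodule.span ℝ {t} →
      ∀ κ : V →ₗ[ℝ] ℝ, (∀ v ∈ Sp (Cn m) p, κ v = 0) → (∀ v ∈ Sp (Cn m) (γ + t), κ v = 0) →
        (∀ v ∈ Sp (Cn m) (γ + t₂), κ v = 0) → κ = 0

/-- E12. Smooth boundary points. -/
def T_SMO : Prop :=
  ∀ (V : Type) [NormedAddCommGroup V] [NormedSpace ℝ V] [FiniteDimensional ℝ V] (C : Set V)
    (p y : V), IsCC C → p ∈ C → 3 ≤ Module.finrank ℝ (Sp C p) →
    ∃ t, Bd C p t ∧ t ∉ Submodule.span ℝ {y} ∧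
      ∀ ξ ζ : V →ₗ[ℝ] ℝ, (∀ r ∈ Fc C p, 0 ≤ ξ r) → (∀ r ∈ Fc C p, 0 ≤ ζ r) → ξ t = 0 → ζ t = 0 →
        ζ p ≠ 0 → ∃ c : ℝ, ∀ v ∈ Sp C p, ξ v = c * ζ v

/-- E13. A minimal face with one supporting hyperplane. -/
def T_HLF : Prop :=
  ∀ (V : Type) [NormedAddCommGroup V] [NormedSpace ℝ V] [FiniteDimensional ℝ V] (m : PN 2 → V),
    Cfg m → NSg m → ∃ (p : V) (κ₀ : V →ₗ[ℝ] ℝ), Ms m p ∧ Nr (Cn m) p κ₀

/-- E14. The projection of the cone along such a face is an open half-space and the origin. -/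
def T_HSC : Prop :=
  ∀ (V : Type) [NormedAddCommGroup V] [NormedSpace ℝ V] [FiniteDimensional ℝ V] (C : Set V)
    (p : V) (κ₀ : V →ₗ[ℝ] ℝ), IsCC C → Submodule.span ℝ C = ⊤ → p ∈ C → Nr C p κ₀ →
    ∀ v, 0 < κ₀ v → ∃ s ∈ Sp C p, v + s ∈ C

end Pool.Agent.H61.KV
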