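import Mathlib

/-!
# Kuiper board KV: the space of Hermitian matrices is spanned by the matrices of rank one
-/

open Set

namespace Pool.Agent.H61.KV

/-- A Hermitian matrix is a real linear combination of matrices of rank one. -/
theorem herm_sum {n : ℕ} (A : Matrix (Fin n) (Fin n) ℂ) (hA : A.IsHermitian) :
    ∃ (c : Fin n → ℝ) (z : Fin n → Fin n → ℂ),
      A = ∑ k, c k • Matrix.vecMulVec (z k) (star (z k)) := by
  refine ⟨hA.eigenvalues, fun k i => hA.eigenvectorUnitary.1 i k, ?_⟩
  have h := hA.spectral_theorem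
  ext i j
  conv_lhs => rw [h]
  simp only [Unitary.conjStarAlgAut_apply, Matrix.mul_apply, Matrix.diagonal_apply, Matrix.sum_apply,
    Matrix.smul_apply, Matrix.vecMulVec_apply, Pi.star_apply, Matrix.star_apply,
    Function.comp_apply, mul_ite, mul_zero, Finset.sum_ite_eq, Finset.mem_univ, if_true]
  refine Finset.sum_congr rfl fun k _ => ?_
  simp only [Finset.sum_ite_eq', Finset.mem_univ, if_true, Complex.real_smul, Complex.coe_algebraMap]
  ring

/-- A linear map to the Hermitian matrices whose image contains all matrices of rank one. -/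
theorem herm_surj {n : ℕ} {V : Type} [AddCommGroup V] [Module ℝ V]
    (M : V →ₗ[ℝ] Matrix (Fin n) (Fin n) ℂ)
    (h : ∀ z : Fin n → ℂ, ∃ v, M v = Matrix.vecMulVec z (star z))
    (A : Matrix (Fin n) (Fin n) ℂ) (hA : A.IsHermitian) : ∃ v, M v = A := by
  obtain ⟨c, z, rfl⟩ := herm_sum A hA
  choose w hw using h
  refine ⟨∑ k, c k • w (z k), ?_⟩
  rw [map_sum]
  refine Finset.sum_congr rfl fun k _ => ?_
  rw [map_smul, hw]

end Pool.Agent.H61.KV
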