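import Pool.Agent.H61.KV.Final
import Pool.Agent.H61.KV.Herm

/-!
# Kuiper board KV: the theorem for embeddings
-/

open Topology Set
open Pool.Agent.H59 Pool.Agent.H64.LB Pool.Agent.H61.KU

namespace Pool.Agent.H61.KV

theorem isHermitian_rankOne {n : ℕ} (z : Fin n → ℂ) :
    (Matrix.vecMulVec z (star z)).IsHermitian := by
  ext i j
  simp [Matrix.conjTranspose_apply, Matrix.vecMulVec_apply, mul_comm]

/-- The theorem for embeddings. -/
theorem emb (f : C(PN 2, E8)) (hinj : Function.Injective f) (ht : Tight f) (hs : Substantial f)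
    (hn : ∀ x y : E8, x ≠ y → ¬ segment ℝ x y ⊆ range f) :
    ∃ M : (E8 × ℝ) →ₗ[ℝ] Matrix (Fin 3) (Fin 3) ℂ, Function.Injective M ∧
      (∀ v, (M v).IsHermitian) ∧
      (∀ x : PN 2, ∃ z : Fin 3 → ℂ, z ≠ 0 ∧ M (f x, 1) = Matrix.vecMulVec z (star z)) ∧
      ∀ z : Fin 3 → ℂ, z ≠ 0 → ∃ (c : ℝ) (x : PN 2), 0 < c ∧
        M (c • (f x, 1)) = Matrix.vecMulVec z (star z) := by
  obtain ⟨hCFI, hVER⟩ := all
  have hc := hCFI f hinj ht hs
  have hseg : NSg (fun x => ((f x, (1 : ℝ)) : E8 × ℝ)) := by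
    intro x y hxy
    have hne : f x ≠ f y := fun h => hxy (hinj h)
    obtain ⟨q, hq, hqr⟩ := not_subset.1 (hn (f x) (f y) hne)
    obtain ⟨a, b, ha, hb, hab, rfl⟩ := hq
    have ha0 : a ≠ 0 := by
      rintro rfl
      apply hqr
      have : b = 1 := by linarith
      subst this
      simp
    have hb0 : b ≠ 0 := by
      rintro rfl
      apply hqr
      have : a = 1 := by linarith
      subst this
      simp
    refine ⟨a, b, lt_of_le_of_ne ha (Ne.symm ha0), lt_of_le_of_ne hb (Ne.symm hb0), ?_⟩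
    rintro ⟨c, w, hc0, h⟩
    have h2 : a + b = c := by
      have := congrArg Prod.snd h
      simpa using this
    have h1 : a • f x + b • f y = c • f w := by
      have := congrArg Prod.fst h
      simpa using this
    apply hqr
    refine ⟨w, ?_⟩
    rw [h1, ← h2, hab, one_smul]
  obtain ⟨M, hM1, hM2, hM3, hM4⟩ := hVER (E8 × ℝ) _ hc hseg
  refine ⟨M, hM1, hM2, ?_, ?_⟩
  · intro x
    obtain ⟨z, hz⟩ := hM3 (f x, 1) ⟨1, x, zero_le_one, by simp⟩
    refine ⟨z, ?_, hz⟩
    rintro rfl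
    have : M (f x, (1 : ℝ)) = M 0 := by
      rw [hz, map_zero]
      ext i j
      simp [Matrix.vecMulVec_apply]
    have := congrArg Prod.snd (hM1 this)
    simp at this
  · intro z hz
    obtain ⟨v, ⟨c, x, hc0, rfl⟩, hv⟩ := hM4 z
    refine ⟨c, x, lt_of_le_of_ne hc0 ?_, hv⟩
    rintro rfl
    rw [zero_smul, map_zero] at hv
    apply hz
    ext i
    have h := congrFun (congrFun hv i) i
    simp only [Matrix.zero_apply, Matrix.vecMulVec_apply, Pi.star_apply, RCLike.star_def] at h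
    have h' : z i * (starRingEnd ℂ) (z i) = 0 := h.symm
    rw [Complex.mul_conj] at h'
    have h'' : Complex.normSq (z i) = 0 := by exact_mod_cast h'
    simpa using h''

/-- The theorem for embeddings, in the form of the hand-in. -/
theorem embStd (f : C(PN 2, E8)) (hinj : Function.Injective f) (ht : Tight f)
    (hs : Substantial f) (hn : ∀ x y : E8, x ≠ y → ¬ segment ℝ x y ⊆ range f) :
    ∃ L : E8 × ℝ → Matrix (Fin 3) (Fin 3) ℂ,
      (IsLinearMap ℝ L ∧ Function.Injective L ∧ ∀ A, A ∈ range L ↔ A.IsHermitian) ∧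
      (∀ y, y ∈ range f ↔ ∃ z : Fin 3 → ℂ, z ≠ 0 ∧ L (y, 1) = Matrix.vecMulVec z (star z)) ∧
      ∀ z : Fin 3 → ℂ, z ≠ 0 → ∃ y ∈ range f, ∃ s : ℝ, 0 < s ∧
        L (y, 1) = s • Matrix.vecMulVec z (star z) := by
  obtain ⟨M, hM1, hM2, hM3, hM4⟩ := emb f hinj ht hs hn
  refine ⟨M, ⟨M.isLinear, hM1, ?_⟩, ?_, ?_⟩
  · intro A
    constructor
    · rintro ⟨v, rfl⟩
      exact hM2 v
    · intro hA
      refine herm_surj M ?_ A hA
      intro z
      by_cases hz : z = 0
      · refine ⟨0, ?_⟩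
        rw [map_zero, hz]
        ext i j
        simp [Matrix.vecMulVec_apply]
      · obtain ⟨c, x, -, h⟩ := hM4 z hz
        exact ⟨_, h⟩
  · intro y
    constructor
    · rintro ⟨x, rfl⟩
      exact hM3 x
    · rintro ⟨z, hz, h⟩
      obtain ⟨c, x, hc, h'⟩ := hM4 z hz
      have h2 := hM1 (h'.trans h.symm)
      have hc1 : c = 1 := by
        have := congrArg Prod.snd h2
        simpa using this
      refine ⟨x, ?_⟩
      have := congrArg Prod.fst h2
      simpa [hc1] using this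
  · intro z hz
    obtain ⟨c, x, hc, h⟩ := hM4 z hz
    refine ⟨f x, ⟨x, rfl⟩, c⁻¹, inv_pos.2 hc, ?_⟩
    rw [← h, map_smul, smul_smul, inv_mul_cancel₀ hc.ne', one_smul]

end Pool.Agent.H61.KV
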