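import Pool.Agent.H61.KV.TF

/-!
# Kuiper board KV: the theorem for cones, from the targets
-/

open Topology Set
open Pool.Agent.H59 Pool.Agent.H64.LB Pool.Agent.H61.KU

namespace Pool.Agent.H61.KV

/-- F13 from the other targets. -/
theorem pf_VER (hNFX : T_NFX) (hNFD : T_NFD) (hCST : T_CST) (hQUA : T_QUA) (hQPR : T_QPR)
    (hAL1 : T_AL1) (hAL2 : T_AL2) (hASM : T_ASM) (hTRA : T_TRA) : T_VER := by
  intro V _ _ _ m hc hn
  obtain ⟨L, T, g, hN⟩ := hNFX V m hc hn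
  have hP : Pln T g := hNFD _ T g hN
  have hK := hCST T g hP
  obtain ⟨g₀, l, β, hs, hg⟩ := hQUA g hP.cont hK
  have hQ : Qd T β := hQPR T g g₀ l β hP hs hg
  obtain ⟨x₀, x₁, y₀, y₁, t₁, t₂, k₀, k₁, h1, h2, h3, h4, h5, h6, h7, h8, h9, h10, h11, h12⟩ :=
    hAL1 T β hQ
  obtain ⟨θ, Λ, hi, hh, hv⟩ := hAL2 β x₀ x₁ y₀ y₁ t₁ t₂ k₀ k₁ hs h1 h2 h3 h4 h5 h6 h7 h8 h9 h10
    h11 h12
  obtain ⟨M, hMi, hMh, hM1, hM2⟩ := hASM _ T g g₀ l β θ Λ hN hQ hg hi hh hv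
  obtain ⟨-, -, -, hmh, -, -, -⟩ := hTRA V F9 m L
  refine ⟨M.comp L.toLinearMap, ?_, ?_, ?_, ?_⟩
  · exact hMi.comp L.injective
  · intro v
    exact hMh (L v)
  · intro v hv'
    exact hM1 (L v) ((hmh v).2 hv')
  · intro z
    obtain ⟨v, hv1, hv2⟩ := hM2 z
    refine ⟨L.symm v, ?_, ?_⟩
    · rw [← hmh]
      simpa using hv1
    · simpa using hv2

end Pool.Agent.H61.KV
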