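import Pool.Agent.H61.KV.TE

/-!
# Kuiper board KV, part F: coordinates, quadratic maps, the Veronese surface
-/

open Topology Set
open Pool.Agent.H59 Pool.Agent.H64.LB Pool.Agent.H61.KU
open scoped unitInterval

namespace Pool.Agent.H61.KV

/-- Euclidean 4-space (twice in the coordinates of this part) -/
abbrev F4 : Type := EuclideanSpace ℝ (Fin 4)

/-- the space of the coordinates -/
abbrev F9 : Type := F4 × F4 × ℝ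

/-- symmetric second differences -/
def Dl (g : F4 → F4) (u w : F4) : F4 := g (u + w) + g (u - w) - (2 : ℝ) • g u

/-- `t` is a boundary point of `T`, not the origin -/
def Bo (T : Set F4) (t : F4) : Prop := t ∈ T ∧ t ≠ 0 ∧ t ∉ interior T

/-- the cone and the image in coordinates -/
structure Nf (m : PN 2 → F9) (T : Set F4) (g : F4 → F4) : Prop where
  cfg : Cfg m
  nsg : NSg m
  ms : ∃ a ∈ interior T, Ms m (a, 0, 0)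
  cn : ∀ (a u : F4) (r : ℝ), (a, u, r) ∈ Cn m ↔
    (0 < r ∧ a - r • g (r⁻¹ • u) ∈ T) ∨ (r = 0 ∧ u = 0 ∧ a ∈ T)
  mh : ∀ (a u : F4) (r : ℝ), (a, u, r) ∈ Mh m ↔
    (0 < r ∧ a = r • g (r⁻¹ • u)) ∨ (r = 0 ∧ u = 0 ∧ a ∈ T ∧ a ∉ interior T)

/-- a strictly convex cone with interior points -/
structure Sc (T : Set F4) : Prop where
  cc : IsCC T
  int : (interior T).Nonempty
  str : ∀ s ∈ T, ∀ t ∈ T, t ≠ 0 → s + t ∉ interior T → ∃ c : ℝ, s = c • t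

/-- the properties of `g` which are used in the algebraic part -/
structure Pln (T : Set F4) (g : F4 → F4) : Prop where
  sc : Sc T
  cont : Continuous g
  cvx : ∀ (u v : F4) (c : ℝ), 0 ≤ c → c ≤ 1 →
    c • g u + (1 - c) • g v - g (c • u + (1 - c) • v) ∈ T
  bdy : ∀ u w : F4, w ≠ 0 → Bo T (Dl g u w)
  pln : ∀ t, Bo T t → ∀ u, ∃ D : Submodule ℝ F4, Module.finrank ℝ D = 2 ∧
    ∀ w, w ∈ D ↔ ∃ c : ℝ, Dl g u w = c • t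

/-- the same for a symmetric bilinear map -/
structure Qd (T : Set F4) (β : F4 →ₗ[ℝ] F4 →ₗ[ℝ] F4) : Prop where
  sc : Sc T
  symm : ∀ u v, β u v = β v u
  bdy : ∀ w, w ≠ 0 → Bo T (β w w)
  pln : ∀ t, Bo T t → ∃ D : Submodule ℝ F4, Module.finrank ℝ D = 2 ∧
    ∀ w, w ∈ D ↔ ∃ c : ℝ, β w w = c • t

/-- F1. Coordinates. -/
def T_NFX : Prop :=
  ∀ (V : Type) [NormedAddCommGroup V] [NormedSpace ℝ V] [FiniteDimensional ℝ V] (m : PN 2 → V),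
    Cfg m → NSg m → ∃ (L : V ≃L[ℝ] F9) (T : Set F4) (g : F4 → F4), Nf (fun x => L (m x)) T g

/-- F2. The cone `T` is strictly convex, `g` is convex and continuous. -/
def T_NFS : Prop :=
  ∀ (m : PN 2 → F9) (T : Set F4) (g : F4 → F4), Nf m T g → Sc T ∧ Continuous g ∧
    ∀ (u v : F4) (c : ℝ), 0 ≤ c → c ≤ 1 → c • g u + (1 - c) • g v - g (c • u + (1 - c) • v) ∈ T

/-- F3. The minimal faces through a point at infinity. -/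
def T_NFP : Prop :=
  ∀ (m : PN 2 → F9) (T : Set F4) (g : F4 → F4), Nf m T g → ∀ t, Bo T t → ∀ u,
    ∃ D : Submodule ℝ F4, Module.finrank ℝ D = 2 ∧
      ∀ w, w ∈ D ↔ (g (u + w), u + w, (1 : ℝ)) ∈ Fc (Cn m) (g u + t, u, (1 : ℝ))

/-- F4. The same in terms of second differences. -/
def T_NFD : Prop :=
  ∀ (m : PN 2 → F9) (T : Set F4) (g : F4 → F4), Nf m T g → Pln T g

/-- F5. Supporting functionals of strictly convex cones. -/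
def T_SCF : Prop :=
  ∀ T : Set F4, Sc T → (∀ t, Bo T t → ∃ ζ : F4 →ₗ[ℝ] ℝ, (∀ s ∈ T, 0 ≤ ζ s) ∧ ζ t = 0 ∧
    ∀ s ∈ T, ζ s = 0 → ∃ c : ℝ, 0 ≤ c ∧ s = c • t) ∧
    (∀ y y' : F4, ∃ t, Bo T t ∧ t ∉ Submodule.span ℝ {y} ∧ t ∉ Submodule.span ℝ {y'})

/-- F6. Convex functions which are affine on a line. -/
def T_LIN : Prop :=
  ∀ (f : F4 → ℝ) (u w : F4), ConvexOn ℝ univ f →
    (∀ s : ℝ, f (u + s • w) + f (u - s • w) = 2 * f u) →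
    ∃ c : ℝ, ∀ (u' : F4) (s : ℝ), f (u' + s • w) = f u' + s * c

/-- F7. The second differences of `g` are constant. -/
def T_CST : Prop :=
  ∀ (T : Set F4) (g : F4 → F4), Pln T g → ∀ w u u', Dl g u w = Dl g u' w

/-- F8. Maps with constant second differences. -/
def T_QUA : Prop :=
  ∀ g : F4 → F4, Continuous g → (∀ w u u', Dl g u w = Dl g u' w) →
    ∃ (g₀ : F4) (l : F4 →ₗ[ℝ] F4) (β : F4 →ₗ[ℝ] F4 →ₗ[ℝ] F4), (∀ u v, β u v = β v u) ∧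
      ∀ u, g u = g₀ + l u + β u u

/-- F9. The quadratic part. -/
def T_QPR : Prop :=
  ∀ (T : Set F4) (g : F4 → F4) (g₀ : F4) (l : F4 →ₗ[ℝ] F4) (β : F4 →ₗ[ℝ] F4 →ₗ[ℝ] F4), Pln T g →
    (∀ u v, β u v = β v u) → (∀ u, g u = g₀ + l u + β u u) → Qd T β

/-- F10. A normal form of `β`. -/
def T_AL1 : Prop :=
  ∀ (T : Set F4) (β : F4 →ₗ[ℝ] F4 →ₗ[ℝ] F4), Qd T β →
    ∃ x₀ x₁ y₀ y₁ t₁ t₂ k₀ k₁ : F4, LinearIndependent ℝ ![x₀, x₁, y₀, y₁] ∧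
      LinearIndependent ℝ ![t₁, t₂, k₀, k₁] ∧
      β x₀ x₀ = t₁ ∧ β x₁ x₁ = t₁ ∧ β x₀ x₁ = 0 ∧ β y₀ y₀ = t₂ ∧ β y₁ y₁ = t₂ ∧ β y₀ y₁ = 0 ∧
      β x₀ y₀ = k₀ ∧ β x₁ y₁ = k₀ ∧ β x₀ y₁ = k₁ ∧ β x₁ y₀ = - k₁

/-- F11. The normal form in terms of Hermitian matrices. -/
def T_AL2 : Prop :=
  ∀ (β : F4 →ₗ[ℝ] F4 →ₗ[ℝ] F4) (x₀ x₁ y₀ y₁ t₁ t₂ k₀ k₁ : F4), (∀ u v, β u v = β v u) →
    LinearIndependent ℝ ![x₀, x₁, y₀, y₁] → LinearIndependent ℝ ![t₁, t₂, k₀, k₁] →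
    β x₀ x₀ = t₁ → β x₁ x₁ = t₁ → β x₀ x₁ = 0 → β y₀ y₀ = t₂ → β y₁ y₁ = t₂ → β y₀ y₁ = 0 →
    β x₀ y₀ = k₀ → β x₁ y₁ = k₀ → β x₀ y₁ = k₁ → β x₁ y₀ = - k₁ →
    ∃ (θ : (Fin 2 → ℂ) ≃ₗ[ℝ] F4) (Λ : F4 →ₗ[ℝ] Matrix (Fin 2) (Fin 2) ℂ), Function.Injective Λ ∧
      (∀ a, (Λ a).IsHermitian) ∧ ∀ z, Λ (β (θ z) (θ z)) = Matrix.vecMulVec z (star z)

/-- F12. Hermitian 3 × 3 matrices. -/
def T_ASM : Prop :=
  ∀ (m : PN 2 → F9) (T : Set F4) (g : F4 → F4) (g₀ : F4) (l : F4 →ₗ[ℝ] F4)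
    (β : F4 →ₗ[ℝ] F4 →ₗ[ℝ] F4) (θ : (Fin 2 → ℂ) ≃ₗ[ℝ] F4)
    (Λ : F4 →ₗ[ℝ] Matrix (Fin 2) (Fin 2) ℂ), Nf m T g → Qd T β →
    (∀ u, g u = g₀ + l u + β u u) → Function.Injective Λ → (∀ a, (Λ a).IsHermitian) →
    (∀ z, Λ (β (θ z) (θ z)) = Matrix.vecMulVec z (star z)) →
    ∃ L : F9 →ₗ[ℝ] Matrix (Fin 3) (Fin 3) ℂ, Function.Injective L ∧ (∀ v, (L v).IsHermitian) ∧
      (∀ v ∈ Mh m, ∃ z : Fin 3 → ℂ, L v = Matrix.vecMulVec z (star z)) ∧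
      ∀ z : Fin 3 → ℂ, ∃ v ∈ Mh m, L v = Matrix.vecMulVec z (star z)

/-- F13. The theorem for cones. -/
def T_VER : Prop :=
  ∀ (V : Type) [NormedAddCommGroup V] [NormedSpace ℝ V] [FiniteDimensional ℝ V] (m : PN 2 → V),
    Cfg m → NSg m → ∃ L : V →ₗ[ℝ] Matrix (Fin 3) (Fin 3) ℂ, Function.Injective L ∧
      (∀ v, (L v).IsHermitian) ∧
      (∀ v ∈ Mh m, ∃ z : Fin 3 → ℂ, L v = Matrix.vecMulVec z (star z)) ∧
      ∀ z : Fin 3 → ℂ, ∃ v ∈ Mh m, L v = Matrix.vecMulVec z (star z)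

end Pool.Agent.H61.KV
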