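import Pool.Agent.H14.KU.COU
import Pool.Agent.H16.KU.DOX
import Pool.Agent.H21.KU.CEL
import Pool.Agent.H21.KU.PRE
import Pool.Agent.H23.KU.GH4
import Pool.Agent.H24.KU.CHP
import Pool.Agent.H3.KU.SPH
import Pool.Agent.H33.KU.CAP
import Pool.Agent.H33.KU.OV
import Pool.Agent.H33.KU.PD2
import Pool.Agent.H54.KU.DOM
import Pool.Agent.H56.KU.HOM
import Pool.Agent.H56.KU.KKN
import Pool.Agent.H58.KU.SEP
import Pool.Agent.H58.KU.SLS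
import Pool.Agent.H67.KU.GAU
import Pool.Agent.H67.KU.OTI
import Pool.Agent.H69.KU.LIF
import Pool.Agent.H69.KU.TRV
import Pool.Agent.H70.KU.KC
import Pool.Agent.H86.KU.PD3
import Pool.Agent.H87.KU.S4A
import Pool.Agent.H87.KU.SLA
import Pool.Agent.H90.KU.T3
import Pool.Agent.H90.KU.UU2
import Pool.Agent.H90.KU.ZER
import Pool.Agent.H91.KU.PHI
import Pool.Agent.H91.KU.T3N
import Pool.Agent.H94.KU.CPT
import Pool.Agent.H94.KU.XHO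
import Pool.Agent.H61.KU.Lib
import Pool.Agent.H14.KV.HSP
import Pool.Agent.H14.KV.SPP
import Pool.Agent.H16.KV.EBD
import Pool.Agent.H17.KV.QPR
import Pool.Agent.H17.KV.T3G
import Pool.Agent.H19.KV.MNS
import Pool.Agent.H19.KV.NFX
import Pool.Agent.H19.KV.SPX
import Pool.Agent.H19.KV.UNI
import Pool.Agent.H20.KV.EXP
import Pool.Agent.H20.KV.FCB
import Pool.Agent.H20.KV.RNK
import Pool.Agent.H21.KV.AL1
import Pool.Agent.H21.KV.HLF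
import Pool.Agent.H21.KV.HSC
import Pool.Agent.H23.KV.KKW
import Pool.Agent.H3.KV.GCT
import Pool.Agent.H3.KV.STM
import Pool.Agent.H33.KV.CFI
import Pool.Agent.H33.KV.TPS
import Pool.Agent.H35.KV.MAX
import Pool.Agent.H42.KV.STD
import Pool.Agent.H47.KV.STQ
import Pool.Agent.H47.KV.SUM
import Pool.Agent.H47.KV.TRA
import Pool.Agent.H48.KV.EOV
import Pool.Agent.H48.KV.LIN
import Pool.Agent.H49.KV.BND
import Pool.Agent.H5.KV.NFS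
import Pool.Agent.H5.KV.PRC
import Pool.Agent.H5.KV.SPF
import Pool.Agent.H50.KV.BIP
import Pool.Agent.H51.KV.AL2
import Pool.Agent.H51.KV.JOI
import Pool.Agent.H51.KV.MIT
import Pool.Agent.H54.KV.MNM
import Pool.Agent.H56.KV.EXT
import Pool.Agent.H56.KV.SIM
import Pool.Agent.H58.KV.HAC
import Pool.Agent.H58.KV.P1N
import Pool.Agent.H58.KV.RK4
import Pool.Agent.H59.KV.NFP
import Pool.Agent.H59.KV.T3W
import Pool.Agent.H60.KV.CST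
import Pool.Agent.H60.KV.SMO
import Pool.Agent.H67.KV.FTR
import Pool.Agent.H67.KV.FTU
import Pool.Agent.H67.KV.TWB
import Pool.Agent.H68.KV.CNC
import Pool.Agent.H68.KV.CRF
import Pool.Agent.H68.KV.LFM
import Pool.Agent.H69.KV.CHN
import Pool.Agent.H69.KV.EFR
import Pool.Agent.H69.KV.POS
import Pool.Agent.H77.KV.B2N
import Pool.Agent.H85.KV.IND
import Pool.Agent.H85.KV.STP
import Pool.Agent.H86.KV.CMN
import Pool.Agent.H86.KV.QUA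
import Pool.Agent.H86.KV.SCF
import Pool.Agent.H86.KV.STJ
import Pool.Agent.H87.KV.OPN
import Pool.Agent.H87.KV.ST
import Pool.Agent.H87.KV.STB
import Pool.Agent.H89.KV.STK
import Pool.Agent.H92.KV.EXM
import Pool.Agent.H94.KV.BSI
import Pool.Agent.H94.KV.PRM
import Pool.Agent.H99.KV.ASM
import Pool.Agent.H99.KV.NFD
import Pool.Agent.H61.KV.VER

/-!
# Kuiper board KV: tight substantial embeddings of the complex projective plane whose image contains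
no segment
-/

open Topology Set
open Pool.Agent.H59 Pool.Agent.H64.LB

namespace Pool.Agent.H61.KV

open Pool.Agent.H61.KU.Lib

/-- The theorem for embeddings, as an existence statement for a linear map. -/
theorem all :
    Pool.Agent.H61.KV.T_CFI ∧ Pool.Agent.H61.KV.T_VER := by
  have hHOM : Pool.Agent.H61.KU.T_HOM := Pool.Agent.H56.KU.pf_hom
  have hGH4 : Pool.Agent.H61.KU.T_GH4 := Pool.Agent.H23.KU.GH4.pf_gh4 hm s2h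
  have hCOU : Pool.Agent.H61.KU.T_COU := Pool.Agent.H14.KU.pf_cou
  have hSLS : Pool.Agent.H61.KU.T_SLS := Pool.Agent.H58.KU.pf_sls mvs cs hCOU
  have hSLA : Pool.Agent.H61.KU.T_SLA := Pool.Agent.H61.KU.pf_sla mvs cs hCOU hSLS
  have hCEL : Pool.Agent.H61.KU.T_CEL := Pool.Agent.H21.KU.pf_cel hSLA
  have hSPH : Pool.Agent.H61.KU.T_SPH := Pool.Agent.H3.KU.pf_sph susp h0 con
  have hS4A : Pool.Agent.H61.KU.T_S4A := Pool.Agent.H61.KU.pf_s4a mv con h0 hSPH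
  have hSEP : Pool.Agent.H61.KU.T_SEP := Pool.Agent.H58.KU.pf_sep mvs h0 hCEL hS4A
  have hPRE : Pool.Agent.H61.KU.T_PRE := Pool.Agent.H21.KU.pf_pre du h0
  have hDOM : Pool.Agent.H61.KU.T_DOM := Pool.Agent.H54.KU.pf_dom hCEL hPRE hS4A hSEP
  have hCHP : Pool.Agent.H61.KU.T_CHP := Pool.Agent.H24.KU.pf_chp hHOM
  have hDOX : Pool.Agent.H61.KU.T_DOX := Pool.Agent.H16.KU.pf_dox hDOM hCHP
  have hLIF : Pool.Agent.H61.KU.T_LIF := Pool.Agent.H69.KU.pf_lif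
  have hCAP : Pool.Agent.H61.KU.T_CAP := Pool.Agent.H33.KU.pf_cap hLIF
  have hCPT : Pool.Agent.H61.KU.T_CPT := Pool.Agent.H94.KU.CPT.pf_cpt
  have hTRV : Pool.Agent.H61.KU.T_TRV := Pool.Agent.H69.KU.pf_trv
  have hPD3 : Pool.Agent.H61.KU.T_PD3 := Pool.Agent.H86.KU.pf_pd3 mv hm susp pl1 s2h hCAP hCPT hTRV
  have hPD2 : Pool.Agent.H61.KU.T_PD2 := Pool.Agent.H33.KU.pf_pd2 hm con
  have hUU2 : Pool.Agent.H61.KU.T_UU2 := Pool.Agent.H90.KU.pf_uu2 mv hPD3 hPD2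
  have hPHI : Pool.Agent.H61.KU.T_PHI := Pool.Agent.H91.KU.PHI.pf_phi
  have hKC : Pool.Agent.H61.KU.T_KC := Pool.Agent.H70.KU.pf_kc susp
  have hOV : Pool.Agent.H61.KU.T_OV := Pool.Agent.H33.KU.pf_ov mvs hPHI hKC
  have hZER : Pool.Agent.H61.KU.T_ZER := Pool.Agent.H90.KU.pf_zer mvs hGH4 hOV
  have hKKN : Pool.Agent.H61.KU.T_KKN := Pool.Agent.H56.KU.pf_kkn susp s2e hm
  have hT3N : Pool.Agent.H61.KU.T_T3N := Pool.Agent.H91.KU.T3N.pf_t3n hm s2h hUU2 hZER hKKN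
  have hXHO : Pool.Agent.H61.KU.T_XHO := Pool.Agent.H94.KU.XHO.pf_xho mv hm con h0 pnt pl1 s2h hSPH hCHP hHOM
  have hT3 : Pool.Agent.H61.KU.T_T3 := Pool.Agent.H90.KU.pf_t3 hm s2e pnt hHOM hXHO hT3N
  have hGAU : Pool.Agent.H61.KU.T_GAU := Pool.Agent.H67.KU.pf_gau
  have hOTI : Pool.Agent.H61.KU.T_OTI := Pool.Agent.H67.KU.pf_oti cs
  have hAL2 : Pool.Agent.H61.KV.T_AL2 := Pool.Agent.H51.KV.pf_AL2
  have hBIP : Pool.Agent.H61.KV.T_BIP := Pool.Agent.H50.KV.pf_BIP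
  have hBND : Pool.Agent.H61.KV.T_BND := Pool.Agent.H49.KV.pf_BND
  have hBSI : Pool.Agent.H61.KV.T_BSI := Pool.Agent.H94.KV.BSI.pf_BSI
  have hCFI : Pool.Agent.H61.KV.T_CFI := Pool.Agent.H33.KV.CFI.pf_CFI hOTI
  have hCNC : Pool.Agent.H61.KV.T_CNC := Pool.Agent.H68.KV.CNC.pf_CNC hXHO
  have hEXP : Pool.Agent.H61.KV.T_EXP := Pool.Agent.H20.KV.EXP.pf_EXP
  have hFCB : Pool.Agent.H61.KV.T_FCB := Pool.Agent.H20.KV.FCB.pf_FCB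
  have hFTR : Pool.Agent.H61.KV.T_FTR := Pool.Agent.H67.KV.FTR.pf_FTR hFCB
  have hFTU : Pool.Agent.H61.KV.T_FTU := Pool.Agent.H67.KV.FTU.pf_FTU hFCB
  have hHSC : Pool.Agent.H61.KV.T_HSC := Pool.Agent.H21.KV.HSC.pf_HSC hFCB
  have hHSP : Pool.Agent.H61.KV.T_HSP := Pool.Agent.H14.KV.HSP.pf_HSP hFCB
  have hKKW : Pool.Agent.H61.KV.T_KKW := Pool.Agent.H23.KV.pf_KKW susp s2e hm
  have hLFM : Pool.Agent.H61.KV.T_LFM := Pool.Agent.H68.KV.LFM.pf_LFM hXHO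
  have hLIN : Pool.Agent.H61.KV.T_LIN := Pool.Agent.H48.KV.LIN.pf_LIN
  have hOPN : Pool.Agent.H61.KV.T_OPN := Pool.Agent.H87.KV.pf_OPN hLFM hDOX
  have hPOS : Pool.Agent.H61.KV.T_POS := Pool.Agent.H69.KV.POS.pf_POS hBIP
  have hPRC : Pool.Agent.H61.KV.T_PRC := Pool.Agent.H5.KV.PRC.pf_PRC
  have hPRM : Pool.Agent.H85.KV.IND.PRMr := Pool.Agent.H94.KV.PRM.pf_PRM hPOS hBND
  have hQPR : Pool.Agent.H61.KV.T_QPR := Pool.Agent.H17.KV.QPR.pf_QPR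
  have hQUA : Pool.Agent.H61.KV.T_QUA := Pool.Agent.H86.KV.pf_QUA
  have hRNK : Pool.Agent.H61.KV.T_RNK := Pool.Agent.H20.KV.RNK.pf_RNK hFCB
  have hSIM : Pool.Agent.H61.KV.T_SIM := Pool.Agent.H56.KV.SIM.pf_SIM
  have hSPF : Pool.Agent.H61.KV.T_SPF := Pool.Agent.H5.KV.SPF.pf_SPF
  have hSPP : Pool.Agent.H61.KV.T_SPP := Pool.Agent.H14.KV.SPP.pf_SPP
  have hSPX : Pool.Agent.H61.KV.T_SPX := Pool.Agent.H19.KV.SPX.pf_SPX hFCB hFTU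
  have hSTB : Pool.Agent.H61.KV.T_STB := Pool.Agent.H87.KV.pf_STB hPOS hBSI
  have hSTD : Pool.Agent.H61.KV.T_STD := Pool.Agent.H42.KVSTD.pf_STD
  have hSTP : Pool.Agent.H61.KV.T_STP := Pool.Agent.H85.KV.STP.pf_STP hCOU mvs cs
  have hT3W : Pool.Agent.H61.KV.T_T3W := Pool.Agent.H59.KV.T3W.pf_T3W hm hUU2 hZER hKKW
  have hTPS : Pool.Agent.H61.KV.T_TPS := Pool.Agent.H33.KV.TPS.pf_TPS hm hGAU hHSP hCNC hXHO
  have hTRA : Pool.Agent.H61.KV.T_TRA := Pool.Agent.H47.KV.TRA.pf_TRA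
  have hASM : Pool.Agent.H61.KV.T_ASM := Pool.Agent.H99.KV.ASM.pf_ASM hCNC
  have hCRF : Pool.Agent.H61.KV.T_CRF := Pool.Agent.H68.KV.CRF.pf_CRF hFCB
  have hEFR : Pool.Agent.H61.KV.T_EFR := Pool.Agent.H69.KV.EFR.pf_EFR hFCB hCNC
  have hEXT : Pool.Agent.H61.KV.T_EXT := Pool.Agent.H56.KV.EXT.pf_EXT hFCB
  have hGCT : Pool.Agent.H61.KV.T_GCT := Pool.Agent.H3.KV.pf_GCT hPOS
  have hMNS : Pool.Agent.H61.KV.T_MNS := Pool.Agent.H19.KV.MNS.pf_MNS hFCB hRNK hCNC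
  have hNFS : Pool.Agent.H61.KV.T_NFS := Pool.Agent.H5.KV.NFS.pf_NFS hCNC hEFR
  have hP1N : Pool.Agent.H61.KV.T_P1N := Pool.Agent.H58.KV.pf_P1N hFCB hCNC hLFM hCRF hTPS hSPH hXHO hGAU
  have hSCF : Pool.Agent.H61.KV.T_SCF := Pool.Agent.H86.KV.pf_SCF hFCB hSPP hEXT
  have hT3G : Pool.Agent.H61.KV.T_T3G := Pool.Agent.H17.KV.T3G.pf_T3G hm s2e hHOM hT3W
  have hTWB : Pool.Agent.H61.KV.T_TWB := Pool.Agent.H67.KV.TWB.pf_TWB hFCB hEXT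
  have hAL1 : Pool.Agent.H61.KV.T_AL1 := Pool.Agent.H21.KV.AL1.pf_AL1 hSCF
  have hB2N : Pool.Agent.H61.KV.T_B2N := Pool.Agent.H77.KV.B2N.pf_B2N hP1N hT3 hCNC
  have hCST : Pool.Agent.H61.KV.T_CST := Pool.Agent.H60.KV.CST.pf_CST hSCF hLIN
  have hEBD : Pool.Agent.H61.KV.T_EBD := Pool.Agent.H16.KV.EBD.pf_EBD hEFR hFCB hCNC
  have hEXM : Pool.Agent.H61.KV.T_EXM := Pool.Agent.H92.KV.EXM.pf_EXM hCNC hMNS hFCB
  have hHAC : Pool.Agent.H61.KV.T_HAC := Pool.Agent.H58.KV.pf_HAC hCNC hP1N hT3G hXHO cs hEXP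
  have hMNM : Pool.Agent.H61.KV.T_MNM := Pool.Agent.H54.KV.MNM.pf_MNM hSPF hCNC hMNS hB2N hEXP hFCB
  have hSMO : Pool.Agent.H61.KV.T_SMO := Pool.Agent.H60.KV.SMO.pf_SMO hFCB hTWB
  have hSTM : Pool.Agent.H61.KV.T_STM := Pool.Agent.H3.KV.pf_STM hFCB hFTU hCNC hMNS hB2N
  have hUNI : Pool.Agent.H61.KV.T_UNI := Pool.Agent.H19.KV.UNI.pf_UNI hFCB hCNC hB2N hEBD
  have hCHN : Pool.Agent.H61.KV.T_CHN := Pool.Agent.H69.KV.CHN.pf_CHN hHAC hSTP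
  have hIND : Pool.Agent.H61.KV.T_IND := Pool.Agent.H85.KV.IND.pf_IND hPRC hPRM hMNM hLFM hOPN hCNC
  have hSTQ : Pool.Agent.H61.KV.T_STQ := Pool.Agent.H47.KV.STQ.pf_STQ hIND hPOS hCNC
  have hST : Pool.Agent.H61.KV.T_ST := Pool.Agent.H87.KV.pf_ST hSTD hTRA hSTQ hSTB hP1N hCNC hFCB
  have hSTK : Pool.Agent.H61.KV.T_STK := Pool.Agent.H89.KV.STK.pf_STK hSTQ hGCT hSIM hCHN hOPN hPRE hSTM hBSI hSPP hCNC hFCB hP1N hXHO
  have hCMN : Pool.Agent.H61.KV.T_CMN := Pool.Agent.H86.KV.pf_CMN hFCB hCNC hST hSTM hFTU hFTR hEBD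
  have hEOV : Pool.Agent.H61.KV.T_EOV := Pool.Agent.H48.KV.EOV.pf_EOV hST hCNC hFTU hEXP
  have hSTJ : Pool.Agent.H61.KV.T_STJ := Pool.Agent.H86.KV.pf_STJ hSTD hTRA hSTK hBSI hP1N hCNC hFCB hFTU
  have hRK4 : Pool.Agent.H61.KV.T_RK4 := Pool.Agent.H58.KV.pf_RK4 hFCB hCNC hST hSTJ hFTU hFTR hEBD hCMN hMNS hP1N hTWB hSPX hRNK hSPP hEXP
  have hSUM : Pool.Agent.H61.KV.T_SUM := Pool.Agent.H47.KV.SUM.pf_SUM hFCB hCNC hST hFTR hEBD hCMN hP1N hSPX hSPP hRK4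
  have hMAX : Pool.Agent.H61.KV.T_MAX := Pool.Agent.H35.KV.MAX.pf_MAX hFCB hCNC hST hFTU hFTR hEBD hEFR hMNS hP1N hTWB hSPX hB2N hEOV hEXP hRK4
  have hMIT : Pool.Agent.H61.KV.T_MIT := Pool.Agent.H51.KV.pf_MIT hFCB hCNC hSTM hFTR hP1N hTWB hEOV hRK4 hMAX hSTJ
  have hNFP : Pool.Agent.H61.KV.T_NFP := Pool.Agent.H59.KV.NFP.pf_NFP hFCB hCNC hNFS hRK4 hMAX hP1N hSPX hST hFTR hEBD
  have hHLF : Pool.Agent.H61.KV.T_HLF := Pool.Agent.H21.KV.HLF.pf_HLF hFCB hCNC hSTM hFTR hEBD hP1N hTWB hUNI hSPP hEXP hRK4 hMAX hSTJ hMIT hEXM hEOV hSUM hSMO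
  have hJOI : Pool.Agent.H61.KV.T_JOI := Pool.Agent.H51.KV.pf_JOI hCNC hFTR hP1N hTWB hRK4 hMAX hSTJ hMIT hEXM
  have hNFD : Pool.Agent.H61.KV.T_NFD := Pool.Agent.H99.KV.NFD.pf_NFD hFCB hCNC hNFS hNFP hRK4 hMAX hJOI hUNI hFTR hEBD hSTM hEFR
  have hNFX : Pool.Agent.H61.KV.T_NFX := Pool.Agent.H19.KV.NFX.pf_NFX hFCB hCNC hTRA hST hSTM hSTJ hFTU hP1N hMAX hMIT hHLF hHSC hEXP
  exact ⟨hCFI, pf_VER hNFX hNFD hCST hQUA hQPR hAL1 hAL2 hASM hTRA⟩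

end Pool.Agent.H61.KV
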