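import Mathlib

/-!
# Kuiper board KV, part G: closed convex cones and their faces

`IsCC C`: `C` is a closed convex pointed cone.  `Fc C p` is the smallest face of `C` containing `p`,
`Sp C p` its span.
-/

open Set

namespace Pool.Agent.H61.KV

section defs

variable {V : Type} [NormedAddCommGroup V] [NormedSpace ℝ V]

/-- closed convex pointed cones -/
structure IsCC (C : Set V) : Prop where
  zero : (0 : V) ∈ C
  add : ∀ p ∈ C, ∀ q ∈ C, p + q ∈ C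
  smul : ∀ c : ℝ, 0 ≤ c → ∀ p ∈ C, c • p ∈ C
  closed : IsClosed C
  pos : ∃ e : V →ₗ[ℝ] ℝ, ∀ p ∈ C, p ≠ 0 → 0 < e p

/-- the smallest face of `C` which contains `p` -/
def Fc (C : Set V) (p : V) : Set V := {q | q ∈ C ∧ ∃ c : ℝ, 0 ≤ c ∧ c • p - q ∈ C}

/-- the span of the smallest face which contains `p` -/
def Sp (C : Set V) (p : V) : Submodule ℝ V := Submodule.span ℝ (Fc C p)

/-- `g` is the foot of the coset of `q`: the points of `C` in `q + Sp C p` are the points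
`g + t`, `t ∈ Fc C p`. -/
def Foot (C : Set V) (p q g : V) : Prop := ∀ r, (r ∈ C ∧ r - q ∈ Sp C p) ↔ r - g ∈ Fc C p

/-- no supporting hyperplane of `C` contains both `p` and `q` -/
def Ov (C : Set V) (p q : V) : Prop :=
  ∀ ξ : V →ₗ[ℝ] ℝ, (∀ r ∈ C, 0 ≤ ξ r) → ξ p = 0 → ξ q = 0 → ξ = 0

/-- `t` lies on the relative boundary of the face of `p` -/
def Bd (C : Set V) (p t : V) : Prop := t ∈ Fc C p ∧ t ≠ 0 ∧ p ∉ Fc C t

end defs

/-- G1. Basic facts on faces. -/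
def T_FCB : Prop :=
  ∀ (V : Type) [NormedAddCommGroup V] [NormedSpace ℝ V] [FiniteDimensional ℝ V] (C : Set V) (p : V),
    IsCC C → p ∈ C →
    p ∈ Fc C p ∧ IsCC (Fc C p) ∧
    (∀ q ∈ C, ∀ r ∈ C, q + r ∈ Fc C p → q ∈ Fc C p ∧ r ∈ Fc C p) ∧
    (∀ q ∈ Fc C p, Fc C q ⊆ Fc C p) ∧
    (∀ q ∈ C, q ∈ Sp C p → q ∈ Fc C p) ∧
    (∀ v ∈ Sp C p, ∃ ε > 0, ∀ δ : ℝ, 0 ≤ δ → δ ≤ ε → p + δ • v ∈ Fc C p) ∧
    (∀ q ∈ Fc C p, p ∈ Fc C q → Fc C q = Fc C p)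

/-- G2. Ranks of faces. -/
def T_RNK : Prop :=
  ∀ (V : Type) [NormedAddCommGroup V] [NormedSpace ℝ V] [FiniteDimensional ℝ V] (C : Set V)
    (p q : V), IsCC C → p ∈ C → q ∈ Fc C p →
    Sp C q ≤ Sp C p ∧ (p ∈ Fc C q ∨ Module.finrank ℝ (Sp C q) < Module.finrank ℝ (Sp C p))

/-- G3. A functional which is nonnegative on `C` and vanishes at `p` vanishes on the face of `p`. -/
def T_EXP : Prop :=
  ∀ (V : Type) [NormedAddCommGroup V] [NormedSpace ℝ V] (C : Set V) (p : V)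
    (ξ : V →ₗ[ℝ] ℝ), (∀ r ∈ C, 0 ≤ ξ r) → ξ p = 0 → ∀ v ∈ Sp C p, ξ v = 0

/-- G4. Supporting functionals. -/
def T_SPP : Prop :=
  ∀ (V : Type) [NormedAddCommGroup V] [NormedSpace ℝ V] [FiniteDimensional ℝ V] (C : Set V) (p : V),
    IsCC C → Submodule.span ℝ C = ⊤ → p ∈ C → Sp C p ≠ ⊤ →
    ∃ ξ : V →ₗ[ℝ] ℝ, ξ ≠ 0 ∧ (∀ q ∈ C, 0 ≤ ξ q) ∧ ξ p = 0

/-- G5. Separation of a face from a compact set. -/
def T_HSP : Prop :=
  ∀ (V : Type) [NormedAddCommGroup V] [NormedSpace ℝ V] [FiniteDimensional ℝ V] (C : Set V) (p : V)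
    (A : Set V), IsCC C → p ∈ C → IsCompact A → A ⊆ C → (∀ a ∈ A, a ∉ Fc C p) →
    ∃ ξ : V →ₗ[ℝ] ℝ, (∀ q ∈ Fc C p, q ≠ 0 → ξ q < 0) ∧ ∀ a ∈ A, 0 < ξ a

/-- G6. The bipolar theorem with functionals which are positive on the cone. -/
def T_BIP : Prop :=
  ∀ (V : Type) [NormedAddCommGroup V] [NormedSpace ℝ V] [FiniteDimensional ℝ V] (C : Set V) (a : V),
    IsCC C → (∀ ζ : V →ₗ[ℝ] ℝ, (∀ t ∈ C, t ≠ 0 → 0 < ζ t) → 0 ≤ ζ a) → a ∈ C

/-- G7. Where a line leaves a face. -/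
def T_EXT : Prop :=
  ∀ (V : Type) [NormedAddCommGroup V] [NormedSpace ℝ V] [FiniteDimensional ℝ V] (C : Set V)
    (p w : V), IsCC C → p ∈ C → w ∈ Sp C p → w ∉ C →
    ∃ s : ℝ, 0 < s ∧ p + s • w ∈ Fc C p ∧ p ∉ Fc C (p + s • w)

/-- G8. A second boundary point. -/
def T_TWB : Prop :=
  ∀ (V : Type) [NormedAddCommGroup V] [NormedSpace ℝ V] [FiniteDimensional ℝ V] (C : Set V)
    (p t : V), IsCC C → p ∈ C → 3 ≤ Module.finrank ℝ (Sp C p) →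
    ∃ s, Bd C p s ∧ s ∉ Submodule.span ℝ {t}

/-- G9. Feet: the face of `g + t` for a foot `g`. -/
def T_FTR : Prop :=
  ∀ (V : Type) [NormedAddCommGroup V] [NormedSpace ℝ V] [FiniteDimensional ℝ V] (C : Set V)
    (p g t : V), IsCC C → p ∈ C → g ∈ C → t ∈ Fc C p → Foot C p g g →
    g ∈ Fc C (g + t) ∧ t ∈ Fc C (g + t) ∧ ∀ r ∈ Fc C p, r ∈ Fc C (g + t) → r ∈ Fc C t

/-- G10. Feet: homogeneity, uniqueness, change of the representative. -/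
def T_FTU : Prop :=
  ∀ (V : Type) [NormedAddCommGroup V] [NormedSpace ℝ V] [FiniteDimensional ℝ V] (C : Set V)
    (p : V), IsCC C → p ∈ C →
    (∀ q g, Foot C p q g → g ∈ C ∧ g - q ∈ Sp C p ∧ Foot C p g g) ∧
    (∀ q g, q ∈ C → Foot C p q g → q - g ∈ Fc C p) ∧
    (∀ q q' g g', q - q' ∈ Sp C p → Foot C p q g → Foot C p q' g' → g = g') ∧
    (∀ q g (c : ℝ), 0 < c → Foot C p q g → Foot C p (c • q) (c • g))

/-- G11. The span of a face `Fc C p'` meets `Sp C p` in the line of `t` if the two faces have only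
the ray of `t` in common. -/
def T_SPX : Prop :=
  ∀ (V : Type) [NormedAddCommGroup V] [NormedSpace ℝ V] [FiniteDimensional ℝ V] (C : Set V)
    (p p' t : V), IsCC C → p ∈ C → p' ∈ C → (∀ q ∈ C, ∃ g, Foot C p q g) →
    (∀ r ∈ Fc C p, r ∈ Fc C p' → ∃ c : ℝ, r = c • t) →
    ∀ v ∈ Sp C p, v ∈ Sp C p' → ∃ c : ℝ, v = c • t

end Pool.Agent.H61.KV
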