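import Pool.Agent.H61.KU.TT
import Pool.Agent.H61.KU.TB
import Pool.Agent.H61.KV.TG

/-!
# Kuiper board KV, part N: topology

`m : PN 2 → V` is a projectively injective map to a 9-dimensional space, `Cn m` the closed convex
cone generated by its image, `Mh m` the union of the rays through the points of the image.
`Ms m p`: the face of `p` is a minimal face which is not contained in `Mh m`, and `p` is a point of
its relative interior which is not in `Mh m`.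
-/

open Topology Set
open Pool.Agent.H59 Pool.Agent.H64.LB Pool.Agent.H61.KU
open scoped unitInterval

namespace Pool.Agent.H61.KV

section defs

variable {V : Type} [NormedAddCommGroup V] [NormedSpace ℝ V]

/-- the cone generated by the image of `m` -/
def Cn (m : PN 2 → V) : Set V :=
  {p | ∃ (c : ℝ) (q : V), 0 ≤ c ∧ q ∈ convexHull ℝ (range m) ∧ p = c • q}

/-- the union of the rays through the points of the image of `m` -/
def Mh (m : PN 2 → V) : Set V := {p | ∃ (c : ℝ) (x : PN 2), 0 ≤ c ∧ p = c • m x}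

/-- a tight and substantial embedding in homogeneous form -/
structure Cfg (m : PN 2 → V) : Prop where
  cont : Continuous m
  pos : ∃ e : V →ₗ[ℝ] ℝ, ∀ x, 0 < e (m x)
  inj : ∀ (x y : PN 2) (c : ℝ), 0 < c → m y = c • m x → x = y
  rank : Module.finrank ℝ V = 9
  span : Submodule.span ℝ (range m) = ⊤
  ot : ∀ (ξ : V →ₗ[ℝ] ℝ) (i : ℕ),
    Function.Injective (HH.map (ZMod 2) i (inc {x : PN 2 | ξ (m x) < 0}))

/-- the face of `p` is minimal among the faces which are not contained in `Mh m`, and `p` is a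
point of its relative interior which is not in `Mh m` -/
def Ms (m : PN 2 → V) (p : V) : Prop :=
  p ∈ Cn m ∧ p ∉ Mh m ∧ ∀ q ∈ Fc (Cn m) p, p ∈ Fc (Cn m) q ∨ Fc (Cn m) q ⊆ Mh m

/-- the image of `m` contains no segment -/
def NSg (m : PN 2 → V) : Prop :=
  ∀ x y : PN 2, x ≠ y → ∃ a b : ℝ, 0 < a ∧ 0 < b ∧ a • m x + b • m y ∉ Mh m

end defs

/-- `W` is connected and has no homology in the degrees `1, ..., n` (coefficients `ZMod 2`) -/
def AC {Y : Type} [TopologicalSpace Y] (n : ℕ) (W : Set Y) : Prop :=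
  Function.Injective (HH.map (ZMod 2) 0 (inc W)) ∧
    ∀ q, 1 ≤ q → q ≤ n → Subsingleton (HH (ZMod 2) q W)

/-- N1. The cone of a configuration. -/
def T_CNC : Prop :=
  ∀ (V : Type) [NormedAddCommGroup V] [NormedSpace ℝ V] [FiniteDimensional ℝ V] (m : PN 2 → V),
    Cfg m → IsCC (Cn m) ∧ Submodule.span ℝ (Cn m) = ⊤ ∧ (∀ x, m x ∈ Cn m) ∧ (∀ x, m x ≠ 0) ∧
      Mh m ⊆ Cn m ∧ IsClosed (Mh m) ∧ (∀ c : ℝ, 0 ≤ c → ∀ p ∈ Mh m, c • p ∈ Mh m) ∧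
      (∀ p ∈ Cn m, p ≠ 0 → ∃ x, m x ∈ Fc (Cn m) p)

/-- N2. The configuration of a tight and substantial embedding. -/
def T_CFI : Prop :=
  ∀ f : C(PN 2, E8), Function.Injective f → Tight f → Substantial f →
    Cfg (fun x => ((f x, (1 : ℝ)) : E8 × ℝ))

/-- N3. Change of coordinates. -/
def T_TRA : Prop :=
  ∀ (V V' : Type) [NormedAddCommGroup V] [NormedSpace ℝ V] [FiniteDimensional ℝ V]
    [NormedAddCommGroup V'] [NormedSpace ℝ V'] [FiniteDimensional ℝ V'] (m : PN 2 → V)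
    (L : V ≃L[ℝ] V'),
    (Cfg m → Cfg (fun x => L (m x))) ∧ (NSg m → NSg (fun x => L (m x))) ∧
    (∀ p, L p ∈ Cn (fun x => L (m x)) ↔ p ∈ Cn m) ∧
    (∀ p, L p ∈ Mh (fun x => L (m x)) ↔ p ∈ Mh m) ∧
    (∀ p q, L q ∈ Fc (Cn (fun x => L (m x))) (L p) ↔ q ∈ Fc (Cn m) p) ∧
    (∀ p v, L v ∈ Sp (Cn (fun x => L (m x))) (L p) ↔ v ∈ Sp (Cn m) p) ∧
    (∀ p, Ms (fun x => L (m x)) (L p) ↔ Ms m p)

/-- N4. Lifting maps to `Mh m` to the projective plane. -/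
def T_LFM : Prop :=
  ∀ (V : Type) [NormedAddCommGroup V] [NormedSpace ℝ V] [FiniteDimensional ℝ V] (m : PN 2 → V),
    Cfg m → ∀ (Y : Type) [TopologicalSpace Y] (φ : Y → V), Continuous φ →
      (∀ y, φ y ∈ Mh m ∧ φ y ≠ 0) →
      ∃ ψ : C(Y, PN 2), ∀ y, ∃ c : ℝ, 0 < c ∧ φ y = c • m (ψ y)

/-- N5. Every face which is not contained in `Mh m` contains a minimal one. -/
def T_MNS : Prop :=
  ∀ (V : Type) [NormedAddCommGroup V] [NormedSpace ℝ V] [FiniteDimensional ℝ V] (m : PN 2 → V),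
    Cfg m → ∀ q ∈ Cn m, ¬ Fc (Cn m) q ⊆ Mh m → ∃ p ∈ Fc (Cn m) q, Ms m p

/-- N6. Coordinates on a face. -/
def T_CRF : Prop :=
  ∀ (V : Type) [NormedAddCommGroup V] [NormedSpace ℝ V] [FiniteDimensional ℝ V] (C : Set V)
    (e : V →ₗ[ℝ] ℝ) (p : V) (d : ℕ), IsCC C → (∀ q ∈ C, q ≠ 0 → 0 < e q) → p ∈ C → e p = 1 →
    Module.finrank ℝ (Sp C p) = d + 2 →
    ∃ j : (Fin (d + 1) → ℝ) →ᵃ[ℝ] V, Function.Injective j ∧ j 0 = p ∧
      (∀ y, j y ∈ Sp C p ∧ e (j y) = 1) ∧ (∀ v ∈ Sp C p, e v = 1 → ∃ y, j y = v) ∧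
      IsCompact (j ⁻¹' Fc C p) ∧ Convex ℝ (j ⁻¹' Fc C p) ∧
      (0 : Fin (d + 1) → ℝ) ∈ interior (j ⁻¹' Fc C p) ∧
      ∀ y ∈ frontier (j ⁻¹' Fc C p), j y ∈ Fc C p ∧ p ∉ Fc C (j y)

/-- N7. The sphere around a missing point. -/
def T_TPS : Prop :=
  ∀ (V : Type) [NormedAddCommGroup V] [NormedSpace ℝ V] [FiniteDimensional ℝ V] (m : PN 2 → V),
    Cfg m → ∀ (e : V →ₗ[ℝ] ℝ) (p : V) (d : ℕ) (j : (Fin (d + 1) → ℝ) →ᵃ[ℝ] V)
      (α : C(Sph d, PN 2)), (∀ q ∈ Cn m, q ≠ 0 → 0 < e q) → p ∈ Cn m → p ∉ Mh m → e p = 1 →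
      Function.Injective j → j 0 = p → (∀ y, j y ∈ Sp (Cn m) p ∧ e (j y) = 1) →
      (∀ v ∈ Sp (Cn m) p, e v = 1 → ∃ y, j y = v) → IsCompact (j ⁻¹' Fc (Cn m) p) →
      Convex ℝ (j ⁻¹' Fc (Cn m) p) → (0 : Fin (d + 1) → ℝ) ∈ interior (j ⁻¹' Fc (Cn m) p) →
      (∀ u, ∃ c : ℝ, 0 < c ∧ m (α u) = c • j (rad (j ⁻¹' Fc (Cn m) p) u.1)) →
      ∀ i, Function.Injective (HH.map (ZMod 2) i α)

/-- N8. Minimal faces have rank 4 and their boundary is an essential sphere. -/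
def T_P1N : Prop :=
  ∀ (V : Type) [NormedAddCommGroup V] [NormedSpace ℝ V] [FiniteDimensional ℝ V] (m : PN 2 → V),
    Cfg m → ∀ p, Ms m p → Module.finrank ℝ (Sp (Cn m) p) = 4 ∧
      ∃ α : C(Sph 2, PN 2), Function.Injective (HH.map (ZMod 2) 2 α) ∧
        ∀ u, m (α u) ∈ Fc (Cn m) p

/-- N9. Two minimal faces meet. -/
def T_B2N : Prop :=
  ∀ (V : Type) [NormedAddCommGroup V] [NormedSpace ℝ V] [FiniteDimensional ℝ V] (m : PN 2 → V),
    Cfg m → ∀ p p', Ms m p → Ms m p' → ∃ q, q ≠ 0 ∧ q ∈ Fc (Cn m) p ∧ q ∈ Fc (Cn m) p'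

/-- N10. Products with an arbitrary space. -/
def T_KKW : Prop :=
  ∀ (W : Type) [TopologicalSpace W] (ε : C(W, PN 1)), HH.map (ZMod 2) 2 ε ≠ 0 →
    HH.map (ZMod 2) 4 ((ContinuousMap.id S2).prodMap ε) ≠ 0

/-- N11. A set which misses an essential sphere (both in the complement of `q0`). -/
def T_T3W : Prop :=
  ∀ (α : C(S2, NN)) (W : Set NN), (∀ s, α s ∉ W) →
    Function.Injective (HH.map (ZMod 2) 2 ((inc (({q0} : Set (PN 2))ᶜ)).comp α)) →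
    ∀ z : HH (ZMod 2) 2 W,
      HH.map (ZMod 2) 2 ((inc (({q0} : Set (PN 2))ᶜ)).comp (inc W)) z = 0

/-- N12. The same in the projective plane. -/
def T_T3G : Prop :=
  ∀ (α : C(Sph 2, PN 2)) (W : Set (PN 2)), (∀ s, α s ∉ W) → (∃ q, q ∉ W ∧ ∀ s, α s ≠ q) →
    Function.Injective (HH.map (ZMod 2) 2 α) → ∀ z : HH (ZMod 2) 2 W,
      HH.map (ZMod 2) 2 (inc W) z = 0

/-- N13. Half-spaces which miss a minimal face. -/
def T_HAC : Prop :=
  ∀ (V : Type) [NormedAddCommGroup V] [NormedSpace ℝ V] [FiniteDimensional ℝ V] (m : PN 2 → V),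
    Cfg m → ∀ p, Ms m p → ∀ κ : V →ₗ[ℝ] ℝ, (∀ q ∈ Fc (Cn m) p, κ q = 0) →
      AC 4 {x : PN 2 | 0 < κ (m x)}

/-- N14. Intersections of two members of a pencil. -/
def T_STP : Prop :=
  ∀ (Y : Type) [TopologicalSpace Y] (B : Set Y) (u₀ u₁ : Y → ℝ) (n : ℕ), IsOpen B →
    Continuous u₀ → Continuous u₁ →
    (∀ θ : ℝ, 0 ≤ θ → θ ≤ 1 → AC (n + 1) (B ∩ {y | 0 < (1 - θ) * u₀ y + θ * u₁ y})) →
    AC n (B ∩ {y | 0 < u₀ y} ∩ {y | 0 < u₁ y})

/-- N15. Intersections of at most five half-spaces which miss a minimal face. -/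
def T_CHN : Prop :=
  ∀ (V : Type) [NormedAddCommGroup V] [NormedSpace ℝ V] [FiniteDimensional ℝ V] (m : PN 2 → V),
    Cfg m → ∀ p, Ms m p → ∀ (k : ℕ) (κ : Fin (k + 1) → V →ₗ[ℝ] ℝ), k ≤ 4 →
      (∀ i, ∀ q ∈ Fc (Cn m) p, κ i q = 0) → AC (4 - k) {x : PN 2 | ∀ i, 0 < κ i (m x)}

end Pool.Agent.H61.KV
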